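import Pool.Agent.H660.UK.Half

/-!
# SetDisjointness: about `(N / t) ^ 2` space for data structures that compute with unknown inputs

A family of `2 h` subsets (`h` sets in each of two halves) of a universe with `n` elements,
`2 h n ≤ N` (so of total size at most `N`), is preprocessed, given by its bits (is the element in the
set?). A query names a set of the first half and a set of the second half: do they have a common
element?

For each bit of the input it is known that it is true, known that it is false, or unknown. The cells
of the memory contain elements of an ordered set `D` of states of knowledge, and each of them is an
arbitrary function of the knowledge about the input that respects the order: more knowledge about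
the input gives more knowledge in the cell (unlimited preprocessing). The query reads cells
adaptively, and its answer is not lost when the contents of the memory become larger (`UDS`). `D` is
any partially ordered set in which the elements below a given one form a chain of real numbers
(`TreeLike D`).

* `D` may be the flat order over any set `A`, for instance the set of the machine words of any
  length: a cell is unknown or contains a word. So the structures may store arbitrary functions of
  the input, as long as they store nothing that is not yet determined by what is known.
* `D` may be `ℝ`; these are the monotone data structures.

(1) For all `N`, `r`, `0 < δ ≤ 1 / 2` and `t ≥ 1` with `160 t log₂ ((N + r) / δ) ≤ δ N` there are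
`h`, `n` with `2 h n ≤ N` such that every random structure of this kind with `s` cells, and with
`2 r` free places which count as probes but not as space and which depend on one half of the family
only, with advantage `δ` and `t` probes on the average, has
`s ≥ δ * (δ * N / (160 * t * log₂ ((N + r) / δ))) ^ 2`. So constant query time needs space
`Ω~(N ^ 2)`, and query time `t` needs space `Ω~((N / t) ^ 2)` in this model. The answer has to be yes
as soon as the elements of the sets are known (everything else may be unknown), and not yes if
everything is known and the sets are disjoint (`USolves`).

(2) There is a three-valued structure with `h ^ 2` cells and one probe, which makes no errors; the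
cell for `q` tells, for every partial knowledge about the family, whether it is known that the two
sets have a common element and whether it is known that they are disjoint.

Proof of (1). Declare the false bits unknown. The contents of a cell is then below its contents for
the input all of whose bits are true, so that it lies in a chain of real numbers. This gives a
monotone data structure with real cells, and the bound of the library result `MonotoneHalves` applies.
-/

set_option autoImplicit false

namespace Pool.Agent.Results.MP_90de28_lc.UnknownInputStructures

open Pool.Agent.H698.HF Pool.Agent.H660.UK
open Pool.Agent.H525R4.Mono (HPlace)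
open Flat (unknown known)

theorem result :
    -- (1) the lower bound
    (∀ (N r : ℕ) (δ t : ℝ), 0 < δ → δ ≤ 1 / 2 → 1 ≤ t →
      160 * t * Real.logb 2 ((N + r) / δ) ≤ δ * N →
      ∃ h n : ℕ, 2 * h * n ≤ N ∧ ∀ (D : Type) [PartialOrder D], TreeLike D → ∀ (s : ℕ) (Ω : Type)
        [Fintype Ω] (p : Ω → ℝ)
        (S : Ω → UDS D (HPlace s r) (Fin 2 → Fin h) (Fin 2 × Fin h × Fin n) (hign h n s r)),
        USolves Set.univ Meets p S δ t →
          δ * (δ * N / (160 * t * Real.logb 2 ((N + r) / δ))) ^ 2 ≤ s) ∧
    -- (2) the table
    (∀ h n : ℕ, ∃ T : UDS (Flat Bool) (HPlace (h ^ 2) 0) (Fin 2 → Fin h) (Fin 2 × Fin h × Fin n)
        (hign h n (h ^ 2) 0),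
      USolves Set.univ Meets (fun _ : Unit => 1) (fun _ => T) (1 / 2) 1 ∧
      ∀ q, (∃ x ∈ (Set.univ : Set (Fin 2 × Fin h × Fin n → Prop)), Meets x q) →
        ∃ c, ∀ P : Know (Fin 2 × Fin h × Fin n),
        T.reads q (T.mem P) = {c} ∧
        (T.cont c P = known true ↔ ∀ x, Le P (full x) → Meets x q) ∧
        (T.cont c P = known false ↔ ∀ x, Le P (full x) → ¬ Meets x q)) ∧
    -- (3) the orders
    TreeLike ℝ ∧ ∀ A : Type, TreeLike (Flat A) :=
  ⟨fun _ _ _ _ hδ hδ2 ht hnt => half_unknown hδ hδ2 ht hnt, half_table, treeLike_real,
    fun _ => Flat.treeLike⟩

end Pool.Agent.Results.MP_90de28_lc.UnknownInputStructures
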